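import Pool.Agent.helper82.VD.SpecH

/-!
# Project VD (MP_07c750_an), row SCB: the abstract sections on the shell
-/

set_option autoImplicit false

open Pool.Agent.VD Pool.Agent.VDE MeasureTheory Filter Set Topology
open scoped ENNReal

namespace Pool.Agent.VDG

noncomputable section

theorem SCB_proof (hMSC : MSC_stmt) (hSNM : SNM_stmt) (hSLI : SLI_stmt) : SCB_stmt := by
  intro m r1 c C e0 e1 hr1 hC he0 he1
  obtain ⟨e, Cm, he, hee1, hCm, hM⟩ := hMSC m r1 c C e0 e1 hr1 hC he1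
  refine ⟨max C Cm, min e e0, lt_min he he0, min_le_right _ _, (min_le_left _ _).trans hee1, ?_⟩
  intro Γ _ _ K F0 G Φ dd κ hG hS
  have hM' := hM Γ K F0 G Φ dd κ hG hS
  set C' := max C Cm with hC'def
  set e' := min e e0 with he'def
  have he'e : e' ≤ e := min_le_left _ _
  have he'0 : e' ≤ e0 := min_le_right _ _
  have he'1 : e' ≤ e1 := he'e.trans hee1
  have hCC' : C ≤ C' := le_max_left _ _
  have hCmC' : Cm ≤ C' := le_max_right _ _
  have hC0 : 0 < C := by linarith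
  have hCm0 : 0 < Cm := by linarith
  have hC'0 : 0 < C' := by linarith
  have h4C : 4 * C * e' ≤ e1 := le_trans (mul_le_mul_of_nonneg_left he'0 (by positivity)) hS.el
  have he'pos : 0 < e' := lt_min he he0
  have hfl := hG.fld
  have hdis := hfl.dis
  obtain ⟨hnc, -, -, -, -⟩ := hSNM (m + 1) G hfl.met
  obtain ⟨hinvΦ, -⟩ := hSLI (m + 1) Γ K F0 G Φ C dd (by omega) hfl
  have hshell : MeasurableSet {p : P (m + 1) | nrm G p = 1} := (isClosed_eq hnc continuous_const).measurableSet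
  have hemb : MeasurableEmbedding (Subtype.val : Shl G → P (m + 1)) := MeasurableEmbedding.subtype_coe hshell
  have hmu : ∀ B : Set (Shl G), muS G B = liou G (Subtype.val '' B) := fun B => hemb.comap_apply _ _
  -- the data
  let f : ℝ → Shl G → Shl G := fun t x => ⟨Φ t x.1, by rw [hfl.fn, x.2]⟩
  have hf : ∀ (t : ℝ) (x : Shl G), (f t x).1 = Φ t x.1 := fun t x => rfl
  let κ' : Shl G → EE m → Shl G := fun z a => if h : ‖a‖ ≤ e1 then ⟨κ z.1 a, hS.mem z.1 z.2 a h⟩ else z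
  have hκ : ∀ (z : Shl G) (a : EE m), ‖a‖ ≤ e1 → (κ' z a).1 = κ z.1 a := by
    intro z a ha
    show (if h : ‖a‖ ≤ e1 then (⟨κ z.1 a, hS.mem z.1 z.2 a h⟩ : Shl G) else z).1 = κ z.1 a
    rw [dif_pos ha]
  have hpm : ∀ z z' : Shl G, ∃ (F : EE m → EE m) (τ : EE m → ℝ), dd (Φ 1 z.1) z'.1 ≤ e0 → (HYP c C e0 F ∧ ‖F 0‖ ≤ C * dd (Φ 1 z.1) z'.1 ∧
      ∀ a, ‖a‖ ≤ e0 → Φ (τ a) (κ z.1 a) = κ z'.1 (F a) ∧ |τ a - 1| ≤ C * (‖a‖ ^ 2 + dd (Φ 1 z.1) z'.1) ∧ ‖F a - F 0‖ ≤ C * ‖a - 0‖) := by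
    intro z z'
    by_cases h : dd (Φ 1 z.1) z'.1 ≤ e0
    · obtain ⟨F, τ, h1, h2, -, h3⟩ := hS.pmap z.1 z.2 z'.1 z'.2 1 (by norm_num) (by norm_num) h
      refine ⟨F, τ, fun _ => ⟨h1, h2, fun a ha => ?_⟩⟩
      obtain ⟨h4, h5, h6⟩ := h3 a ha
      exact ⟨h4, h5, (h6 0 (by rw [norm_zero]; exact he0.le)).2⟩
    · exact ⟨fun a => a, fun _ => 0, fun h' => absurd h' h⟩
  choose F τ hF using hpm
  -- flow boxes
  have hbox : ∀ (z : Shl G) (A : Set (EE m)) (r : ℝ), A ⊆ Metric.closedBall 0 e' → Subtype.val '' (bxs f κ' z A r) = bxP Φ (κ z.1) A r := by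
    intro z A r hA
    have hA1 : ∀ a ∈ A, ‖a‖ ≤ e1 := fun a ha => (mem_closedBall_zero_iff.1 (hA ha)).trans he'1
    ext p
    constructor
    · rintro ⟨_, ⟨a, ha, s, hs, rfl⟩, rfl⟩
      refine ⟨a, ha, s, hs, ?_⟩
      rw [hf, hκ z a (hA1 a ha)]
    · rintro ⟨a, ha, s, hs, rfl⟩
      refine ⟨f s (κ' z a), ⟨a, ha, s, hs, rfl⟩, ?_⟩
      rw [hf, hκ z a (hA1 a ha)]
  refine ⟨f, κ', F, τ, hf, hκ, ?_⟩
  refine
    { hC := hC.trans hCC'
      he := he'pos
      d0 := fun x y => hdis.nn _ _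
      dz := fun x => hdis.zero _
      ds := fun x y => hdis.symm _ _
      dt := fun x y z => hdis.tri _ _ _
      f0 := fun x => Subtype.ext (hfl.flow.zero x.1)
      fa := fun s t x => Subtype.ext (hfl.flow.add s t x.1)
      fm := ?_
      tt := ?_
      lp := ?_
      k0 := ?_
      kl := ?_
      bx := ?_
      inj := ?_
      poH := ?_
      po0 := ?_
      poF := ?_
      mle := ?_
      lem := ?_ }
  · -- the measure is invariant
    intro t
    have hcont : Continuous (Φ t) := by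
      have h1 : Continuous (fun q : ℝ × P (m + 1) => Φ q.1 q.2) := hfl.flow.smooth.continuous
      exact h1.comp (Continuous.prodMk continuous_const continuous_id)
    have hmeas : Measurable (f t) := (hcont.measurable.comp measurable_subtype_coe).subtype_mk
    refine ⟨hmeas, ?_⟩
    refine Measure.ext fun A hA => ?_
    rw [Measure.map_apply hmeas hA, hmu, hmu]
    have h1 : Subtype.val '' (f t ⁻¹' A) = Φ t ⁻¹' (Subtype.val '' A) := by
      ext p
      constructor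
      · rintro ⟨x, hx, rfl⟩
        exact ⟨f t x, hx, rfl⟩
      · rintro ⟨y, hy, hyp⟩
        have hp : nrm G p = 1 := by
          have h2 := y.2
          rw [hyp, hfl.fn] at h2
          exact h2
        refine ⟨⟨p, hp⟩, ?_, rfl⟩
        have h3 : f t ⟨p, hp⟩ = y := Subtype.ext hyp.symm
        show f t ⟨p, hp⟩ ∈ A
        rw [h3]
        exact hy
    rw [h1]
    exact (hinvΦ t).measure_preimage (hemb.measurableSet_image.2 hA).nullMeasurableSet
  · intro x t ht
    exact (hG.tt x.1 t x.2 ht).trans (mul_le_mul_of_nonneg_right hCC' (abs_nonneg _))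
  · intro x y t ht
    exact (hG.lp x.1 y.1 t x.2 y.2 ht).trans (mul_le_mul_of_nonneg_right hCC' (hdis.nn _ _))
  · intro z
    refine Subtype.ext ?_
    rw [hκ z 0 (by rw [norm_zero]; exact he1.le)]
    exact hS.zero z.1 z.2
  · intro z a ha
    show dd z.1 (κ' z a).1 ≤ C' * ‖a‖
    rw [hκ z a (ha.trans he'1)]
    have h1 := hS.cmp z.1 z.2 0 a (by rw [norm_zero]; exact he1.le) (ha.trans he'1)
    rw [hS.zero z.1 z.2, zero_sub, norm_neg] at h1
    exact h1.trans (mul_le_mul_of_nonneg_right hCC' (norm_nonneg _))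
  · intro z p hzp
    have hzp' : dd z.1 p.1 ≤ e' := hzp
    obtain ⟨s, a, h1, h2, h3⟩ := hS.box z.1 z.2 p.1 p.2 (hzp'.trans he'0)
    have h4 : C * dd z.1 p.1 ≤ C' * dd z.1 p.1 := mul_le_mul_of_nonneg_right hCC' (hdis.nn _ _)
    have h5 : ‖a‖ ≤ e1 := by
      have h6 : C * dd z.1 p.1 ≤ C * e' := mul_le_mul_of_nonneg_left hzp' hC0.le
      have h7 : 0 ≤ C * e' := by positivity
      linarith
    refine ⟨a, s, h3.trans h4, h2.trans h4, Subtype.ext ?_⟩
    rw [hf, hκ z a h5]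
    exact h1
  · intro z a a' s ha ha' hs hk
    have h1 := congrArg Subtype.val hk
    rw [hf, hκ z a (ha.trans he'1), hκ z a' (ha'.trans he'1)] at h1
    have h2 := hS.inj z.1 z.2 a a' s 0 (ha.trans he'1) (ha'.trans he'1) (hs.trans he'1) (by rw [abs_zero]; exact he1.le)
    rw [hfl.flow.zero, h1, hdis.zero, mul_zero, sub_zero] at h2
    have h3 : ‖a - a'‖ = 0 := le_antisymm (by linarith [abs_nonneg s]) (norm_nonneg _)
    have h4 : |s| = 0 := le_antisymm (by linarith [norm_nonneg (a - a')]) (abs_nonneg _)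
    exact ⟨(sub_eq_zero.1 (norm_eq_zero.1 h3)).symm, abs_eq_zero.1 h4⟩
  · intro z z' hz
    exact (hF z z' (le_trans hz he'0)).1
  · intro z z' hz
    refine (hF z z' (le_trans hz he'0)).2.1.trans ?_
    exact mul_le_mul_of_nonneg_right hCC' (hdis.nn _ _)
  · intro z z' hz a ha
    have hz' : dd (Φ 1 z.1) z'.1 ≤ e' := hz
    obtain ⟨-, h2, h3⟩ := hF z z' (le_trans hz he'0)
    obtain ⟨h4, h5, h6⟩ := h3 a (ha.trans he'0)
    rw [sub_zero] at h6
    have h7 : ‖F z z' a‖ ≤ e1 := by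
      have h8 : ‖F z z' a‖ ≤ ‖F z z' a - F z z' 0‖ + ‖F z z' 0‖ := by
        have := norm_add_le (F z z' a - F z z' 0) (F z z' 0)
        rwa [sub_add_cancel] at this
      have h9 : C * ‖a‖ ≤ C * e' := mul_le_mul_of_nonneg_left ha hC0.le
      have h10 : C * dd (Φ 1 z.1) z'.1 ≤ C * e' := mul_le_mul_of_nonneg_left hz' hC0.le
      have h11 : 0 ≤ C * e' := by positivity
      linarith
    refine ⟨Subtype.ext ?_, ?_⟩
    · rw [hf, hκ z' _ h7, hκ z a (ha.trans he'1)]
      exact h4.symm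
    · refine h5.trans (mul_le_mul_of_nonneg_right hCC' ?_)
      exact add_nonneg (sq_nonneg _) (hdis.nn _ _)
  · intro z A r hA hAm hr hre
    obtain ⟨-, h5, -⟩ := hM' z.1 A r z.2 (hA.trans (Metric.closedBall_subset_closedBall he'e)) hAm hr (hre.trans he'e)
    rw [hmu, hbox z A r hA]
    refine h5.trans ?_
    gcongr
  · intro z A r hA hAm hr hre
    obtain ⟨-, -, h5⟩ := hM' z.1 A r z.2 (hA.trans (Metric.closedBall_subset_closedBall he'e)) hAm hr (hre.trans he'e)
    rw [hmu, hbox z A r hA]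
    refine le_trans ?_ h5
    gcongr

end

end Pool.Agent.VDG
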