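import Pool.Agent.helper82.VD.SpecG

/-!
# Project VD (MP_07c750_an), row GOU: Bowen balls inside flow boxes
-/

set_option autoImplicit false

open Pool.Agent.VDE MeasureTheory Filter Set Topology
open scoped ENNReal

namespace Pool.Agent.VDG

noncomputable section

/-- the small radius -/
theorem GOU_eps (C C1 e ρ0 : ℝ) (hC : 1 ≤ C) (hC1 : 1 ≤ C1) (he : 0 < e) (hρ : 0 < ρ0) :
    ∃ ε1 : ℝ, 0 < ε1 ∧ ε1 ≤ e ∧ C * ε1 ≤ e ∧ C * ε1 ≤ ρ0 ∧ C1 * (C * ε1) ≤ e ∧ C * (C * ε1) ^ 2 + 2 * (C * ε1) ≤ e := by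
  set b := min 1 (min e ρ0) with hb
  have hb0 : 0 < b := lt_min one_pos (lt_min he hρ)
  have hb1 : b ≤ 1 := min_le_left _ _
  have hbe : b ≤ e := (min_le_right _ _).trans (min_le_left _ _)
  have hbρ : b ≤ ρ0 := (min_le_right _ _).trans (min_le_right _ _)
  have hC0 : 0 < C := by linarith
  have hC10 : 0 < C1 := by linarith
  have hC3 : 1 ≤ C ^ 3 := one_le_pow₀ hC
  have hCC3 : C ≤ C ^ 3 := le_self_pow₀ hC (by norm_num)
  set M := 3 * C ^ 3 * C1 with hM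
  have hM0 : 0 < M := by positivity
  have hMM : C1 * (3 * C ^ 3) = M := by rw [hM]; ring
  obtain ⟨ε, hε⟩ : ∃ ε : ℝ, ε = b / M := ⟨_, rfl⟩
  have hε0 : 0 < ε := by rw [hε]; positivity
  have hMε : M * ε = b := by rw [hε]; field_simp
  -- `C1 * (3 C^3 ε) = b`
  have h1 : C1 * (3 * C ^ 3 * ε) = b := by rw [← hMε, hM]; ring
  have h2 : 3 * C ^ 3 * ε ≤ b := by
    have h3 : 0 ≤ 3 * C ^ 3 * ε := by positivity
    nlinarith
  have h4 : C ^ 3 * ε ≤ b := by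
    have h3 : 0 ≤ C ^ 3 * ε := by positivity
    linarith
  have h5 : C * ε ≤ C ^ 3 * ε := mul_le_mul_of_nonneg_right hCC3 hε0.le
  have h6 : ε ≤ C ^ 3 * ε := le_mul_of_one_le_left hε0.le hC3
  have h7 : ε ≤ 1 := by linarith
  refine ⟨ε, hε0, by linarith, by linarith, by linarith, ?_, ?_⟩
  · have h8 : C1 * (C * ε) ≤ C1 * (3 * C ^ 3 * ε) := by
      refine mul_le_mul_of_nonneg_left ?_ hC10.le
      have h3 : 0 ≤ C ^ 3 * ε := by positivity
      linarith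
    linarith
  · have h8 : C * (C * ε) ^ 2 = C ^ 3 * ε * ε := by ring
    have h9 : C ^ 3 * ε * ε ≤ C ^ 3 * ε := mul_le_of_le_one_right (by positivity) h7
    rw [h8]
    linarith

theorem GOU_proof (hGDR : GDR_stmt) : GOU_stmt := by
  intro S _ m μ d f H C e κ F τ C1 ρ0 hS hB
  obtain ⟨hH, -, -⟩ := hGDR μ d f H C e κ F τ C1 ρ0 hS hB
  obtain ⟨ε1, hε0, hεe, hCe, hCρ, hC1e, hCC⟩ := GOU_eps C C1 e ρ0 hS.hC hB.hC hS.he hB.hρ
  refine ⟨ε1, hε0, ?_⟩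
  intro x n ε h0 hεε y hy
  have hC0 : 0 < C := by linarith [hS.hC]
  have hC10 : 0 < C1 := by linarith [hB.hC]
  have hCε : C * ε ≤ C * ε1 := mul_le_mul_of_nonneg_left hεε hC0.le
  have hCε0 : 0 ≤ C * ε := mul_nonneg hC0.le h0
  have hex : ∀ i : ℕ, ∃ (a : EE m) (s : ℝ), i ≤ n → ‖a‖ ≤ C * ε ∧ |s| ≤ C * ε ∧ f i y = f s (κ (f i x) a) := by
    intro i
    by_cases hi : i ≤ n
    · have h1 : d (f i x) (f i y) ≤ ε := hy i ⟨Nat.cast_nonneg i, by exact_mod_cast hi⟩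
      obtain ⟨a, s, ha, hs, hp⟩ := hS.bx (f i x) (f i y) (h1.trans (hεε.trans hεe))
      have h2 : C * d (f i x) (f i y) ≤ C * ε := mul_le_mul_of_nonneg_left h1 hC0.le
      exact ⟨a, s, fun _ => ⟨ha.trans h2, hs.trans h2, hp⟩⟩
    · exact ⟨0, 0, fun h => absurd h hi⟩
  choose a s has using hex
  have hf1 : ∀ (i : ℕ) (w : S), f 1 (f i w) = f ((i : ℝ) + 1) w := by
    intro i w
    rw [← hS.fa, add_comm]
  have hstep : ∀ i < n, orb f F x i (a i) = a (i + 1) := by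
    intro i hi
    obtain ⟨ha1, hs1, hp1⟩ := has i hi.le
    obtain ⟨ha2, hs2, hp2⟩ := has (i + 1) hi
    have hcast : (((i + 1 : ℕ) : ℕ) : ℝ) = (i : ℝ) + 1 := by push_cast; ring
    rw [hcast] at hp2
    have hd0 : d (f 1 (f i x)) (f ((i : ℝ) + 1) x) = 0 := by rw [hf1, hS.dz]
    have hde : d (f 1 (f i x)) (f ((i : ℝ) + 1) x) ≤ e := by rw [hd0]; exact hS.he.le
    have hae : ‖a i‖ ≤ e := ha1.trans (hCε.trans hCe)
    obtain ⟨hk, ht⟩ := hS.poF (f i x) (f ((i : ℝ) + 1) x) hde (a i) hae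
    rw [hd0, add_zero] at ht
    obtain ⟨hHi, hFi⟩ := hH x i
    have hlip := hB.lip (orb f F x i) hHi (a i) 0 (ha1.trans (hCε.trans hCρ)) (by rw [norm_zero]; exact hB.hρ.le)
    rw [hFi, sub_zero, sub_zero] at hlip
    have hFe : ‖orb f F x i (a i)‖ ≤ e := by
      refine hlip.trans ?_
      have h1 : C1 * ‖a i‖ ≤ C1 * (C * ε1) := mul_le_mul_of_nonneg_left (ha1.trans hCε) hC10.le
      linarith
    have hsum : κ (f ((i : ℝ) + 1) x) (orb f F x i (a i)) =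
        f (τ (f i x) (f ((i : ℝ) + 1) x) (a i) + (-(s i)) + (-1) + s (i + 1)) (κ (f ((i : ℝ) + 1) x) (a (i + 1))) := by
      have e1 : κ (f i x) (a i) = f (-(s i)) (f i y) := by
        rw [hp1, ← hS.fa, neg_add_cancel, hS.f0]
      have e2 : f i y = f (-1) (f ((i : ℝ) + 1) y) := by
        rw [← hS.fa]
        congr 1
        ring
      have e3 : κ (f ((i : ℝ) + 1) x) (orb f F x i (a i)) = f (τ (f i x) (f ((i : ℝ) + 1) x) (a i)) (κ (f i x) (a i)) := hk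
      rw [hS.fa (τ (f i x) (f ((i : ℝ) + 1) x) (a i) + (-(s i)) + (-1)) (s (i + 1)), hS.fa (τ (f i x) (f ((i : ℝ) + 1) x) (a i) + (-(s i))) (-1),
        hS.fa (τ (f i x) (f ((i : ℝ) + 1) x) (a i)) (-(s i)), ← hp2, ← e2, ← e1]
      exact e3
    have hsle : |τ (f i x) (f ((i : ℝ) + 1) x) (a i) + (-(s i)) + (-1) + s (i + 1)| ≤ e := by
      have h1 : ‖a i‖ ^ 2 ≤ (C * ε1) ^ 2 := pow_le_pow_left₀ (norm_nonneg _) (ha1.trans hCε) 2
      have h2 : C * ‖a i‖ ^ 2 ≤ C * (C * ε1) ^ 2 := mul_le_mul_of_nonneg_left h1 hC0.le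
      have h3 : τ (f i x) (f ((i : ℝ) + 1) x) (a i) + (-(s i)) + (-1) + s (i + 1) = (τ (f i x) (f ((i : ℝ) + 1) x) (a i) - 1) - s i + s (i + 1) := by ring
      rw [h3]
      have h4 := abs_add_le (τ (f i x) (f ((i : ℝ) + 1) x) (a i) - 1 - s i) (s (i + 1))
      have h5 := abs_sub (τ (f i x) (f ((i : ℝ) + 1) x) (a i) - 1) (s i)
      linarith
    exact (hS.inj (f ((i : ℝ) + 1) x) (a (i + 1)) (orb f F x i (a i)) _ (ha2.trans (hCε.trans hCe)) hFe hsle hsum).1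
  have hitr : ∀ i ≤ n, itr (orb f F x) i (a 0) = a i := by
    intro i
    induction i with
    | zero =>
      intro _
      rfl
    | succ i ih =>
      intro hi
      show orb f F x i (itr (orb f F x) i (a 0)) = a (i + 1)
      rw [ih (by omega)]
      exact hstep i (by omega)
  obtain ⟨ha0, hs0, hp0⟩ := has 0 (Nat.zero_le _)
  refine ⟨a 0, ?_, s 0, hs0, ?_⟩
  · intro i hi
    rw [hitr i hi]
    exact (has i hi).1
  · rw [Nat.cast_zero, hS.f0, hS.f0] at hp0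
    exact hp0

end

end Pool.Agent.VDG
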